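import Pool.Agent.Lib.MP_b197b4_dr.Choose

/-!
# MP_b197b4_nt, dimension reduction: Artin vanishing for unions of affine open subsets
-/

set_option autoImplicit false

open CategoryTheory AlgebraicGeometry TopologicalSpace Topology

namespace Pool.Agent.Lib.MP_b197b4_dr

variable {p : ℕ}

/-- An open subset as an open subscheme. -/
noncomputable def opn (X : Scheme.{0}) (U : X.Opens) : Scheme.{0} := U

/-- The inclusion of an open subscheme. -/
noncomputable def opnι (X : Scheme.{0}) (U : X.Opens) : opn X U ⟶ X :=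
  U.ι

instance (X : Scheme.{0}) (U : X.Opens) : IsOpenImmersion (opnι X U) :=
  show IsOpenImmersion U.ι by infer_instance

/-- The inclusion of open subschemes. -/
noncomputable def opnLE (X : Scheme.{0}) {U V : X.Opens} (h : U ≤ V) : opn X U ⟶ opn X V :=
  X.homOfLE h

instance (X : Scheme.{0}) {U V : X.Opens} (h : U ≤ V) : IsOpenImmersion (opnLE X h) :=
  show IsOpenImmersion (X.homOfLE h) by infer_instance

theorem range_opnι (X : Scheme.{0}) (U : X.Opens) :
    Set.range (opnι X U) = (U : Set X) :=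
  Scheme.Opens.range_ι U

theorem opnLE_comp (X : Scheme.{0}) {U V : X.Opens} (h : U ≤ V) :
    opnLE X h ≫ opnι X V = opnι X U :=
  X.homOfLE_ι h

theorem mem_range_opnLE (X : Scheme.{0}) {U V : X.Opens} (h : U ≤ V) (x : (opn X V)) :
    x ∈ Set.range (opnLE X h) ↔ (opnι X V) x ∈ U := by
  constructor
  · rintro ⟨y, rfl⟩
    have h1 : (opnι X V) ((opnLE X h) y) = (opnι X U) y := by
      rw [← opnLE_comp X h]
      rfl
    rw [h1]
    have h2 : (opnι X U) y ∈ Set.range (opnι X U) := ⟨y, rfl⟩
    rw [range_opnι] at h2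
    exact h2
  · intro hx
    have h1 : (opnι X V) x ∈ Set.range (opnι X U) := by
      rw [range_opnι]
      exact hx
    obtain ⟨y, hy⟩ := h1
    refine ⟨y, ?_⟩
    have h2 : (opnι X V) ((opnLE X h) y) = (opnι X U) y := by
      rw [← opnLE_comp X h]
      rfl
    exact (opnι X V).isOpenEmbedding.injective (h2.trans hy)

theorem isAffineOpen_inf {X : Scheme.{0}} (hX : IsVar p X) {U V : X.Opens}
    (hU : IsAffineOpen U) (hV : IsAffineOpen V) : IsAffineOpen (U ⊓ V) := by
  obtain ⟨π, h0, -, -⟩ := hX
  have h1 : IsAffineHom (Limits.pullback.diagonal π) := inferInstance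
  exact (isAffineHom_diagonal_iff.1 h1) ⊤ (isAffineOpen_top _) U (by simp) V (by simp) hU hV

theorem cup_map_inf {X : Scheme.{0}} (A : X.Opens) (L : List X.Opens) :
    cup (L.map (A ⊓ ·)) = A ⊓ cup L := by
  induction L with
  | nil => simp [cup]
  | cons B L ih =>
    have h1 : cup ((B :: L).map (A ⊓ ·)) = (A ⊓ B) ⊔ cup (L.map (A ⊓ ·)) := rfl
    have h2 : cup (B :: L) = B ⊔ cup L := rfl
    rw [h1, h2, ih, inf_sup_left]

/-- A middle term of an exact sequence between zero groups is zero. -/
theorem subsingleton_of_exact {A B C : Type} [AddCommGroup A] [AddCommGroup B]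
    [AddCommGroup C] (f : A →+ B) (g : B →+ C) (h : Ex f g) [Subsingleton A] [Subsingleton C] :
    Subsingleton B := by
  refine subsingleton_of_forall_eq 0 fun z => ?_
  obtain ⟨a, rfl⟩ := (h z).1 (Subsingleton.elim _ _)
  rw [Subsingleton.elim a 0, map_zero]

/-- Mayer-Vietoris: if `E_b(A) = 0`, `E_b(V') = 0` and `E_(b+1)(A ⊓ V') = 0`, then
`E_b(A ⊔ V') = 0`. -/
theorem subsingleton_sup [Fact p.Prime] (E : Theory p) {X : Scheme.{0}} (hX : IsVar p X)
    (A V : X.Opens) (b : ℕ) (hA : Subsingleton (E.obj (opn X A) b)) (hV : Subsingleton (E.obj (opn X V) b))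
    (hAV : Subsingleton (E.obj (opn X (A ⊓ V)) (b + 1))) :
    Subsingleton (E.obj (opn X (A ⊔ V)) b) := by
  have hW : IsVar p (opn X (A ⊔ V)) := hX.opn (opnι X _)
  have hAvar : IsVar p (opn X A) := hX.opn (opnι X _)
  obtain ⟨T, s, hs⟩ := exists_split_of_open (opnLE X (le_sup_right : V ≤ A ⊔ V))
  have hA' : A ≤ A ⊔ V := le_sup_left
  have hmem : ∀ x : (opn X (A ⊔ V)), x ∈ Set.range s.i ↔ (opnι X (A ⊔ V)) x ∉ V := by
    intro x
    have h1 : Set.range s.j = (Set.range s.i)ᶜ := s.compl
    rw [hs] at h1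
    have h2 : Set.range s.i = (Set.range (opnLE X (le_sup_right : V ≤ A ⊔ V)))ᶜ := by
      rw [h1, compl_compl]
    rw [h2, Set.mem_compl_iff, mem_range_opnLE]
  have hsub : Set.range s.i ⊆ Set.range (opnLE X hA') := by
    intro x hx
    rw [mem_range_opnLE]
    have h1 := (hmem x).1 hx
    have h2 : (opnι X (A ⊔ V)) x ∈ Set.range (opnι X (A ⊔ V)) := ⟨x, rfl⟩
    rw [range_opnι] at h2
    rcases h2 with h3 | h3
    · exact h3
    · exact (h1 h3).elim
  let g₀ : T ⟶ (opn X A) := IsOpenImmersion.lift (opnLE X hA') s.i hsub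
  have hg₀ : g₀ ≫ (opnLE X hA') = s.i := IsOpenImmersion.lift_fac _ _ _
  let g : T ⟶ opn X A := g₀
  have hgl : g ≫ (opnLE X hA') = s.i := hg₀
  have hcl : IsClosedImmersion (g ≫ (opnLE X hA')) := by
    rw [hgl]
    exact s.closed
  have hg : IsClosedImmersion g := IsClosedImmersion.of_comp g (opnLE X hA')
  have hpt : ∀ t : T, (opnLE X hA') (g t) = s.i t := by
    intro t
    rw [← hgl]
    rfl
  have hι : ∀ x : (opn X A),
      (opnι X (A ⊔ V)) ((opnLE X hA') x) = (opnι X A) x := by
    intro x
    rw [← opnLE_comp X hA']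
    rfl
  let s' : Split T (opn X A) (opn X (A ⊓ V)) :=
    { i := g
      j := opnLE X inf_le_left
      closed := hg
      opn := inferInstance
      compl := by
        change Set.range _ = _
        ext x
        rw [mem_range_opnLE, Set.mem_compl_iff]
        have hxA : (opnι X A) x ∈ A := by
          have h2 : (opnι X A) x ∈ Set.range (opnι X A) := ⟨x, rfl⟩
          rw [range_opnι] at h2
          exact h2
        have hr : x ∈ Set.range g ↔ (opnLE X hA') x ∈ Set.range s.i := by
          constructor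
          · rintro ⟨t, rfl⟩
            exact ⟨t, (hpt t).symm⟩
          · rintro ⟨t, ht⟩
            refine ⟨t, ?_⟩
            apply (opnLE X hA').isOpenEmbedding.injective
            rw [hpt t, ht]
        rw [hr, hmem, hι]
        constructor
        · rintro ⟨-, h⟩ h'
          exact h' h
        · intro h
          exact ⟨hxA, not_not.1 h⟩ }
  have h1 : Subsingleton (E.obj T b) := subsingleton_of_exact (E.bd s' b) (E.push s'.i b)
    (E.exact_bd s' hAvar b)
  exact subsingleton_of_exact (E.push s.i b) (E.pull s.j b) (E.exact_push s hW b)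

/-- Artin vanishing for a union of `c` affine open subsets. -/
theorem artin_union [Fact p.Prime] (E : Theory p) (hE : Artin E) {X : Scheme.{0}}
    (hX : IsVar p X) {D : ℕ} (hs : ∃ π : Str p X, SmoothOfRelativeDimension D π) :
    ∀ (c : ℕ) (L : List X.Opens), L.length = c → (∀ U ∈ L, IsAffineOpen U) →
      ∀ b : ℕ, b + c ≤ D → Subsingleton (E.obj (opn X (cup L)) b) := by
  intro c
  induction c with
  | zero =>
    intro L hL _ b _
    obtain rfl := List.length_eq_zero_iff.1 hL
    refine E.empty _ b ⟨fun x => ?_⟩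
    have h2 : (opnι X (cup [])) x ∈ Set.range (opnι X (cup [])) := ⟨x, rfl⟩
    rw [range_opnι] at h2
    exact h2
  | succ c ih =>
    intro L hL haff b hb
    rcases L with _ | ⟨A, L⟩
    · simp at hL
    have hL' : L.length = c := by simpa using hL
    have hA : IsAffineOpen A := haff A (by simp)
    have haff' : ∀ U ∈ L, IsAffineOpen U := fun U hU => haff U (by simp [hU])
    refine subsingleton_sup E hX A (cup L) b ?_ (ih L hL' haff' b (by omega)) ?_
    · obtain ⟨π, hπ⟩ := hs
      refine hE D (opn X A) ⟨hA, opnι X A ≫ π, ?_⟩ (hX.opn (opnι X A)) b (by omega)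
      have h1 : SmoothOfRelativeDimension (0 + D) (opnι X A ≫ π) := inferInstance
      rw [zero_add] at h1
      exact h1
    · rw [← cup_map_inf]
      refine ih _ (by simpa using hL') ?_ (b + 1) (by omega)
      intro U hU
      obtain ⟨V, hV, rfl⟩ := List.mem_map.1 hU
      exact isAffineOpen_inf hX hA (haff' V hV)

end Pool.Agent.Lib.MP_b197b4_dr
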