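import Pool.Agent.Lib.MP_b197b4_dr.Defs

/-!
# MP_b197b4_nt, dimension reduction: closed and open subschemes
-/

set_option autoImplicit false

open CategoryTheory AlgebraicGeometry TopologicalSpace

namespace Pool.Agent.Lib.MP_b197b4_dr

variable {p : ℕ}

theorem IsVar.closed {Z X : Scheme.{0}} (hX : IsVar p X) (i : Z ⟶ X) [IsClosedImmersion i] :
    IsVar p Z := by
  obtain ⟨π, h1, h2, h3⟩ := hX
  exact ⟨i ≫ π, inferInstance, inferInstance, inferInstance⟩

theorem IsVar.noetherian [Fact p.Prime] {X : Scheme.{0}} (hX : IsVar p X) :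
    AlgebraicGeometry.IsNoetherian X := by
  obtain ⟨π, h1, h2, h3⟩ := hX
  have : IsLocallyNoetherian X := LocallyOfFiniteType.isLocallyNoetherian π
  have : CompactSpace X := QuasiCompact.compactSpace_of_compactSpace π
  exact {}

theorem IsVar.opn [Fact p.Prime] {U X : Scheme.{0}} (hX : IsVar p X) (j : U ⟶ X)
    [IsOpenImmersion j] : IsVar p U := by
  have := hX.noetherian
  have : QuasiCompact j := inferInstance
  obtain ⟨π, h1, h2, h3⟩ := hX
  exact ⟨j ≫ π, inferInstance, inferInstance, inferInstance⟩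

theorem SmoothProper.isVar {n : ℕ} {X : Scheme.{0}} (h : SmoothProper p n X) : IsVar p X := by
  obtain ⟨π, h1, h2⟩ := h.str
  exact ⟨π, inferInstance, inferInstance, inferInstance⟩

/-- The complement of a closed subscheme. -/
theorem exists_split_of_closed {Z X : Scheme.{0}} (i : Z ⟶ X) [IsClosedImmersion i] :
    ∃ (U : Scheme.{0}) (s : Split Z X U), s.i = i := by
  let V : X.Opens := ⟨(Set.range i)ᶜ, i.isClosedEmbedding.isClosed_range.isOpen_compl⟩
  refine ⟨V, ⟨i, V.ι, inferInstance, inferInstance, ?_⟩, rfl⟩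
  change Set.range V.ι = _
  rw [Scheme.Opens.range_ι]
  rfl

theorem isReduced_subscheme (X : Scheme.{0}) (T : Closeds X) :
    AlgebraicGeometry.IsReduced (Scheme.IdealSheafData.vanishingIdeal T).subscheme := by
  let I := Scheme.IdealSheafData.vanishingIdeal T
  have : ∀ U : X.affineOpens, _root_.IsReduced (Γ(X, U) ⧸ I.ideal U) := fun U => by
    rw [← Ideal.isRadical_iff_quotient_reduced]
    rw [show I.ideal U = _ from Scheme.IdealSheafData.vanishingIdeal_ideal T U]
    exact PrimeSpectrum.isRadical_vanishingIdeal _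
  have h : ∀ U, AlgebraicGeometry.IsReduced (I.subschemeCover.openCover.X U) := fun U => by
    have := this U
    exact (affine_isReduced_iff _).2 this
  exact IsReduced.of_openCover _ I.subschemeCover.openCover

/-- A closed subset as a reduced closed subscheme. -/
theorem exists_closed (X : Scheme.{0}) (T : Set X) (hT : IsClosed T) :
    ∃ (Z : Scheme.{0}) (i : Z ⟶ X), IsClosedImmersion i ∧ IsReduced Z ∧ Set.range i = T := by
  let I := Scheme.IdealSheafData.vanishingIdeal (⟨T, hT⟩ : Closeds X)
  refine ⟨I.subscheme, I.subschemeι, inferInstance, isReduced_subscheme _ _, ?_⟩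
  rw [Scheme.IdealSheafData.range_subschemeι]
  simp [I]

/-- The complement of an open subscheme. -/
theorem exists_split_of_open {U X : Scheme.{0}} (j : U ⟶ X) [IsOpenImmersion j] :
    ∃ (Z : Scheme.{0}) (s : Split Z X U), s.j = j := by
  obtain ⟨Z, i, h1, -, h2⟩ := exists_closed X (Set.range j)ᶜ
    j.isOpenEmbedding.isOpen_range.isClosed_compl
  exact ⟨Z, ⟨i, j, h1, inferInstance, by rw [Compl, h2, compl_compl]⟩, rfl⟩

end Pool.Agent.Lib.MP_b197b4_dr
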