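import Pool.Agent.Lib.MP_b197b4_dr.Basic

/-!
# MP_b197b4_nt, dimension reduction: choice of the complete intersection through `Z`
-/

set_option autoImplicit false

open CategoryTheory AlgebraicGeometry TopologicalSpace Topology

namespace Pool.Agent.Lib.MP_b197b4_dr

/-- Prime avoidance: a finite set `F` disjoint from the closed set `Z` lies in an affine open
subset disjoint from `Z`. -/
theorem exists_affine_avoid {X : Scheme.{0}}
    (hA : ∀ F : Set X, F.Finite → ∃ U : X.Opens, IsAffineOpen U ∧ F ⊆ (U : Set X))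
    {Z : Set X} (hZ : IsClosed Z) {F : Set X} (hF : F.Finite) (hFZ : Disjoint F Z) :
    ∃ A : X.Opens, IsAffineOpen A ∧ F ⊆ (A : Set X) ∧ Disjoint (A : Set X) Z := by
  classical
  obtain ⟨U, hU, hFU⟩ := hA F hF
  have hcl : IsClosed (hU.fromSpec ⁻¹' Z : Set (PrimeSpectrum Γ(X, U))) :=
    hZ.preimage hU.fromSpec.continuous
  obtain ⟨I, hI⟩ := (PrimeSpectrum.isClosed_iff_zeroLocus_ideal _).1 hcl
  have hex : ∀ x : X, x ∈ F → ∃ y : PrimeSpectrum Γ(X, U), hU.fromSpec y = x := by
    intro x hx
    have h1 : x ∈ Set.range hU.fromSpec := by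
      rw [hU.range_fromSpec]
      exact hFU hx
    exact h1
  rcases F.eq_empty_or_nonempty with rfl | hne
  · exact ⟨⊥, isAffineOpen_bot X, Set.empty_subset _, by simp⟩
  have hnn : Nonempty (PrimeSpectrum Γ(X, U)) := by
    obtain ⟨x, hx⟩ := hne
    obtain ⟨y, -⟩ := hex x hx
    exact ⟨y⟩
  choose! g hg using hex
  have hnot : ∀ x ∈ F, ¬ I ≤ (g x).asIdeal := by
    intro x hx hle
    have h1 : g x ∈ (hU.fromSpec ⁻¹' Z : Set (PrimeSpectrum Γ(X, U))) := by
      rw [hI]
      exact hle
    have h2 : hU.fromSpec (g x) ∈ Z := h1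
    rw [hg x hx] at h2
    exact (Set.disjoint_left.1 hFZ hx) h2
  have hav : ¬ ((I : Set Γ(X, U)) ⊆ ⋃ x ∈ (↑hF.toFinset : Set X), ((g x).asIdeal : Set Γ(X, U))) := by
    obtain ⟨a, ha⟩ := hne
    intro h
    have h2 := (Ideal.subset_union_prime (s := hF.toFinset) (f := fun x => (g x).asIdeal) a a
      (fun i _ _ _ => (g i).isPrime)).1 h
    obtain ⟨x, hx, hle⟩ := h2
    exact hnot x (hF.mem_toFinset.1 hx) hle
  rw [Set.not_subset] at hav
  obtain ⟨f, hfI, hf⟩ := hav
  refine ⟨X.basicOpen f, hU.basicOpen f, ?_, ?_⟩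
  · intro x hx
    have h1 : f ∉ (g x).asIdeal := by
      intro h2
      apply hf
      simp only [Set.mem_iUnion]
      exact ⟨x, hF.mem_toFinset.2 hx, h2⟩
    have h3 : g x ∈ hU.fromSpec ⁻¹ᵁ X.basicOpen f := by
      rw [hU.fromSpec_preimage_basicOpen]
      exact h1
    have h4 : hU.fromSpec (g x) ∈ X.basicOpen f := h3
    rw [hg x hx] at h4
    exact h4
  · rw [Set.disjoint_left]
    intro x hx hxZ
    have hxU : x ∈ U := X.basicOpen_le f hx
    have h1 : x ∈ Set.range hU.fromSpec := by
      rw [hU.range_fromSpec]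
      exact hxU
    obtain ⟨y, rfl⟩ := h1
    have h2 : y ∈ hU.fromSpec ⁻¹ᵁ X.basicOpen f := hx
    rw [hU.fromSpec_preimage_basicOpen] at h2
    have h3 : y ∈ (hU.fromSpec ⁻¹' Z : Set (PrimeSpectrum Γ(X, U))) := hxZ
    rw [hI] at h3
    exact h2 (h3 hfI)

/-- The union of a list of open subsets. -/
def cup {X : Scheme.{0}} (L : List X.Opens) : X.Opens := L.foldr (· ⊔ ·) ⊥

theorem exists_cut {X : Scheme.{0}} [NoetherianSpace X] {D : ℕ}
    (hD : topologicalKrullDim X ≤ D)
    (hA : ∀ F : Set X, F.Finite → ∃ U : X.Opens, IsAffineOpen U ∧ F ⊆ (U : Set X))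
    {Z : Set X} (hZ : IsClosed Z) (c : ℕ) :
    ∃ L : List X.Opens, L.length = c ∧ (∀ U ∈ L, IsAffineOpen U) ∧
      Disjoint (cup L : Set X) Z ∧
      ∀ s : LTSeries (IrreducibleCloseds X), Disjoint (s.last : Set X) (cup L : Set X) →
        ¬ (s.last : Set X) ⊆ Z → s.length + c ≤ D := by
  induction c with
  | zero =>
    refine ⟨[], rfl, by simp, ?_, ?_⟩
    · simp [cup]
    · intro s _ _
      have h1 := (Order.LTSeries.length_le_krullDim s).trans hD
      rw [add_zero]
      exact_mod_cast h1
  | succ c ih =>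
    obtain ⟨L, hL, haff, hdis, hs⟩ := ih
    have hcl : IsClosed ((cup L : Set X)ᶜ) := (cup L).isOpen.isClosed_compl
    obtain ⟨S, hSf, hSc, hSi, hSU⟩ :=
      NoetherianSpace.exists_finite_set_isClosed_irreducible hcl
    have hch : ∀ C : Set X, C ∈ S → ¬ C ⊆ Z → ∃ x, x ∈ C ∧ x ∉ Z := by
      intro C _ hC
      exact Set.not_subset.1 hC
    rcases isEmpty_or_nonempty X with hemp | hnon
    · refine ⟨⊥ :: L, by simp [hL], ?_, ?_, ?_⟩
      · intro U hU
        rcases List.mem_cons.1 hU with rfl | h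
        · exact isAffineOpen_bot X
        · exact haff U h
      · rw [Set.disjoint_left]
        intro x
        exact (hemp.false x).elim
      · intro s
        obtain ⟨x, -⟩ := s.last.isIrreducible.nonempty
        exact (hemp.false x).elim
    choose! p hp using hch
    let S' : Set (Set X) := {C | C ∈ S ∧ ¬ C ⊆ Z}
    have hS' : S'.Finite := hSf.subset fun C hC => hC.1
    have hF : (p '' S').Finite := hS'.image p
    have hFZ : Disjoint (p '' S') Z := by
      rw [Set.disjoint_left]
      rintro _ ⟨C, hC, rfl⟩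
      exact (hp C hC.1 hC.2).2
    obtain ⟨A, hAa, hAF, hAZ⟩ := exists_affine_avoid hA hZ hF hFZ
    refine ⟨A :: L, by simp [hL], ?_, ?_, ?_⟩
    · intro U hU
      rcases List.mem_cons.1 hU with rfl | h
      · exact hAa
      · exact haff U h
    · have h1 : ((cup (A :: L) : X.Opens) : Set X) = (A : Set X) ∪ (cup L : Set X) := rfl
      rw [h1]
      exact Disjoint.union_left hAZ hdis
    · intro s hsd hsZ
      have h1 : ((cup (A :: L) : X.Opens) : Set X) = (A : Set X) ∪ (cup L : Set X) := rfl
      rw [h1, Set.disjoint_union_right] at hsd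
      have hsub : (s.last : Set X) ⊆ ⋃₀ S := by
        rw [← hSU]
        exact Set.subset_compl_iff_disjoint_right.2 hsd.2
      obtain ⟨C, hCS, hC⟩ := (isIrreducible_iff_sUnion_isClosed.1 s.last.isIrreducible)
        hSf.toFinset (fun z hz => hSc z (hSf.mem_toFinset.1 hz)) (by simpa using hsub)
      have hCS' := hSf.mem_toFinset.1 hCS
      have hCZ : ¬ C ⊆ Z := fun h => hsZ (hC.trans h)
      let C' : IrreducibleCloseds X := ⟨C, hSi C hCS', hSc C hCS'⟩
      have hlt : s.last < C' := by
        refine lt_of_le_of_ne hC ?_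
        intro heq
        have h2 : p C ∈ (s.last : Set X) := by
          rw [heq]
          exact (hp C hCS' hCZ).1
        have h3 : p C ∈ (A : Set X) := hAF ⟨C, ⟨hCS', hCZ⟩, rfl⟩
        exact Set.disjoint_left.1 hsd.1 h2 h3
      have h4 := hs (s.snoc C' hlt) (by
        rw [RelSeries.last_snoc]
        rw [← Set.subset_compl_iff_disjoint_right, hSU]
        exact Set.subset_sUnion_of_mem hCS') (by
        rw [RelSeries.last_snoc]
        exact hCZ)
      have h5 : (s.snoc C' hlt).length = s.length + 1 := rfl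
      omega

/-- Dimension of a closed subscheme, compared with chains of the ambient space. -/
theorem krullDim_le_of_series {X Y Z : Type} [TopologicalSpace X] [TopologicalSpace Y]
    [TopologicalSpace Z] {f : Y → X} (hf : IsClosedEmbedding f) {g : Z → X}
    (hg : IsClosedEmbedding g) {m : ℕ} (hZ : topologicalKrullDim Z ≤ m)
    (h : ∀ s : LTSeries (IrreducibleCloseds X), (s.last : Set X) ⊆ Set.range f →
      ¬ (s.last : Set X) ⊆ Set.range g → s.length ≤ m) :
    topologicalKrullDim Y ≤ m := by
  refine iSup_le fun s => ?_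
  let s' : LTSeries (IrreducibleCloseds X) := s.map (IrreducibleCloseds.map f hf.continuous)
    (IrreducibleCloseds.map_strictMono_of_isInducing hf.isInducing)
  have hlast : ((s'.last : IrreducibleCloseds X) : Set X) = closure (f '' (s.last : Set Y)) := by
    have h0 : s'.last = IrreducibleCloseds.map f hf.continuous s.last := LTSeries.last_map _ _ _
    rw [h0]
    rfl
  have hsub : (s'.last : Set X) ⊆ Set.range f := by
    rw [hlast]
    exact closure_minimal (Set.image_subset_range _ _) hf.isClosed_range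
  have hlen : s'.length = s.length := rfl
  by_cases hin : (s'.last : Set X) ⊆ Set.range g
  · have hle : ∀ i, s' i ≤ s' (Fin.last _) := fun i => LTSeries.monotone s' (Fin.le_last i)
    have hi : ∀ i, (s' i : Set X) ⊆ Set.range g := fun i =>
      Set.Subset.trans (show (s' i : Set X) ⊆ (s' (Fin.last _) : Set X) from hle i) hin
    have hirr : ∀ i, IsIrreducible (g ⁻¹' (s' i : Set X)) := by
      intro i
      have himg : g '' (g ⁻¹' (s' i : Set X)) = (s' i : Set X) :=
        Set.image_preimage_eq_of_subset (hi i)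
      refine ⟨?_, ?_⟩
      · obtain ⟨x, hx⟩ := (s' i).isIrreducible.nonempty
        obtain ⟨z, rfl⟩ := hi i hx
        exact ⟨z, hx⟩
      · have h1 : IsPreirreducible (s' i : Set X) := (s' i).isIrreducible.isPreirreducible
        intro u v hu hv hu' hv'
        obtain ⟨u', hu1, rfl⟩ := hg.isInducing.isOpen_iff.1 hu
        obtain ⟨v', hv1, rfl⟩ := hg.isInducing.isOpen_iff.1 hv
        obtain ⟨a, ha, ha'⟩ := hu'
        obtain ⟨b, hb, hb'⟩ := hv'
        obtain ⟨x, hx, hx1, hx2⟩ := h1 u' v' hu1 hv1 ⟨g a, ha, ha'⟩ ⟨g b, hb, hb'⟩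
        obtain ⟨z, rfl⟩ := hi i hx
        exact ⟨z, hx, hx1, hx2⟩
    let u : Fin (s'.length + 1) → IrreducibleCloseds Z := fun i =>
      ⟨g ⁻¹' (s' i : Set X), hirr i, (s' i).isClosed.preimage hg.continuous⟩
    have hu : ∀ i : Fin s'.length, u i.castSucc < u i.succ := fun i => by
      have h1 : (s' i.castSucc) < (s' i.succ) := s'.step i
      have hle1 : u i.castSucc ≤ u i.succ := fun x hx => h1.le hx
      refine lt_of_le_of_ne hle1 ?_
      intro heq
      have h2 : g ⁻¹' (s' i.castSucc : Set X) = g ⁻¹' (s' i.succ : Set X) :=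
        congrArg (fun T : IrreducibleCloseds Z => (T : Set Z)) heq
      have h3 : g '' (g ⁻¹' (s' i.castSucc : Set X)) = g '' (g ⁻¹' (s' i.succ : Set X)) := by
        rw [h2]
      rw [Set.image_preimage_eq_of_subset (hi _), Set.image_preimage_eq_of_subset (hi _)] at h3
      exact h1.ne (IrreducibleCloseds.ext h3)
    let t : LTSeries (IrreducibleCloseds Z) :=
      { length := s'.length
        toFun := u
        step := hu }
    have h4 := (Order.LTSeries.length_le_krullDim t).trans hZ
    have h5 : t.length = s.length := rfl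
    rw [h5] at h4
    exact h4
  · have h6 := h s' hsub hin
    rw [hlen] at h6
    exact_mod_cast h6

end Pool.Agent.Lib.MP_b197b4_dr
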