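import Pool.Agent.Lib.MP_b197b4_dr.Basic

/-!
# MP_b197b4_nt, dimension reduction: the comparison lemma (diagram chases)
-/

set_option autoImplicit false

open CategoryTheory AlgebraicGeometry TopologicalSpace

namespace Pool.Agent.Lib.MP_b197b4_dr

variable {p : ℕ}

/-- The comparison map is bijective in degrees at most `j` and surjective in degree `j + 1`. -/
def Good (T : Comparison p) (j : ℕ) (X : Scheme.{0}) : Prop :=
  (∀ b ≤ j, Function.Bijective (T.ρ X b)) ∧ Function.Surjective (T.ρ X (j + 1))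

theorem Comparison.push_comm (T : Comparison p) {Z X : Scheme.{0}} (i : Z ⟶ X)
    [IsClosedImmersion i] (b : ℕ) (z : T.H.obj Z b) :
    T.ρ X b (T.H.push i b z) = T.E.push i b (T.ρ Z b z) := T.ρ_push i b z

theorem Comparison.pull_comm (T : Comparison p) {U X : Scheme.{0}} (j : U ⟶ X)
    [IsOpenImmersion j] (b : ℕ) (x : T.H.obj X b) :
    T.ρ U b (T.H.pull j b x) = T.E.pull j b (T.ρ X b x) := T.ρ_pull j b x

theorem Comparison.bd_comm (T : Comparison p) {Z X U : Scheme.{0}} (s : Split Z X U) (b : ℕ)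
    (u : T.H.obj U (b + 1)) : T.ρ Z b (T.H.bd s b u) = T.E.bd s b (T.ρ U (b + 1) u) :=
  T.ρ_bd s b u

variable (T : Comparison p) {j : ℕ}

theorem Good.surj {X : Scheme.{0}} (h : Good T j X) {b : ℕ} (hb : b ≤ j + 1) :
    Function.Surjective (T.ρ X b) := by
  rcases hb.lt_or_eq with h1 | rfl
  · exact (h.1 b (by omega)).2
  · exact h.2

theorem Good.inj {X : Scheme.{0}} (h : Good T j X) {b : ℕ} (hb : b ≤ j) :
    Function.Injective (T.ρ X b) := (h.1 b hb).1

section

variable {Z X U : Scheme.{0}} (s : Split Z X U) (hX : IsVar p X)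

include s hX

theorem inj_mid {b : ℕ} (h1 : Function.Surjective (T.ρ U (b + 1)))
    (h2 : Function.Injective (T.ρ Z b)) (h3 : Function.Injective (T.ρ U b)) :
    Function.Injective (T.ρ X b) := by
  rw [injective_iff_map_eq_zero]
  intro x hx
  have e1 : T.H.pull s.j b x = 0 := h3 (by rw [T.pull_comm, hx, map_zero, map_zero])
  obtain ⟨z, rfl⟩ := (T.H.exact_push s hX b x).1 e1
  have e2 : T.E.push s.i b (T.ρ Z b z) = 0 := by rw [← T.push_comm, hx]
  obtain ⟨w, hw⟩ := (T.E.exact_bd s hX b _).1 e2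
  obtain ⟨u, rfl⟩ := h1 w
  rw [← T.bd_comm] at hw
  have e3 : T.H.bd s b u = z := h2 hw
  exact (T.H.exact_bd s hX b z).2 ⟨u, e3⟩

theorem surj_mid {b : ℕ} (h1 : Function.Surjective (T.ρ Z (b + 1)))
    (h2 : Function.Surjective (T.ρ U (b + 1))) (h3 : Function.Injective (T.ρ Z b)) :
    Function.Surjective (T.ρ X (b + 1)) := by
  intro y
  obtain ⟨u, hu⟩ := h2 (T.E.pull s.j (b + 1) y)
  have e1 : T.H.bd s b u = 0 := h3 (by
    rw [T.bd_comm, hu, map_zero]
    exact (T.E.exact_pull s hX b _).2 ⟨y, rfl⟩)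
  obtain ⟨x, rfl⟩ := (T.H.exact_pull s hX b u).1 e1
  have e2 : T.E.pull s.j (b + 1) (y - T.ρ X (b + 1) x) = 0 := by
    rw [map_sub, ← hu, T.pull_comm, sub_self]
  obtain ⟨e, he⟩ := (T.E.exact_push s hX (b + 1) _).1 e2
  obtain ⟨z, rfl⟩ := h1 e
  refine ⟨x + T.H.push s.i (b + 1) z, ?_⟩
  rw [map_add, T.push_comm, he]
  abel

theorem surj_mid_zero (h1 : Function.Surjective (T.ρ Z 0)) (h2 : Function.Surjective (T.ρ U 0)) :
    Function.Surjective (T.ρ X 0) := by
  intro y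
  obtain ⟨u, hu⟩ := h2 (T.E.pull s.j 0 y)
  obtain ⟨x, rfl⟩ := T.H.surjective_pull s hX u
  have e2 : T.E.pull s.j 0 (y - T.ρ X 0 x) = 0 := by
    rw [map_sub, ← hu, T.pull_comm, sub_self]
  obtain ⟨e, he⟩ := (T.E.exact_push s hX 0 _).1 e2
  obtain ⟨z, rfl⟩ := h1 e
  refine ⟨x + T.H.push s.i 0 z, ?_⟩
  rw [map_add, T.push_comm, he]
  abel

theorem inj_open {b : ℕ} (h1 : Function.Surjective (T.ρ Z (b + 1)))
    (h2 : Function.Injective (T.ρ X (b + 1))) (h3 : Function.Injective (T.ρ Z b)) :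
    Function.Injective (T.ρ U (b + 1)) := by
  rw [injective_iff_map_eq_zero]
  intro u hu
  have e1 : T.H.bd s b u = 0 := h3 (by rw [T.bd_comm, hu, map_zero, map_zero])
  obtain ⟨x, rfl⟩ := (T.H.exact_pull s hX b u).1 e1
  rw [T.pull_comm] at hu
  obtain ⟨e, he⟩ := (T.E.exact_push s hX (b + 1) _).1 hu
  obtain ⟨z, rfl⟩ := h1 e
  rw [← T.push_comm] at he
  rw [← h2 he]
  exact (T.H.exact_push s hX (b + 1) _).2 ⟨z, rfl⟩

theorem inj_open_zero (h1 : Function.Surjective (T.ρ Z 0)) (h2 : Function.Injective (T.ρ X 0)) :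
    Function.Injective (T.ρ U 0) := by
  rw [injective_iff_map_eq_zero]
  intro u hu
  obtain ⟨x, rfl⟩ := T.H.surjective_pull s hX u
  rw [T.pull_comm] at hu
  obtain ⟨e, he⟩ := (T.E.exact_push s hX 0 _).1 hu
  obtain ⟨z, rfl⟩ := h1 e
  rw [← T.push_comm] at he
  rw [← h2 he]
  exact (T.H.exact_push s hX 0 _).2 ⟨z, rfl⟩

theorem surj_open {b : ℕ} (h1 : Function.Surjective (T.ρ X (b + 1)))
    (h2 : Function.Surjective (T.ρ Z b)) (h3 : Function.Injective (T.ρ X b)) :
    Function.Surjective (T.ρ U (b + 1)) := by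
  intro y
  obtain ⟨z, hz⟩ := h2 (T.E.bd s b y)
  have e1 : T.H.push s.i b z = 0 := h3 (by
    rw [T.push_comm, hz, map_zero]
    exact (T.E.exact_bd s hX b _).2 ⟨y, rfl⟩)
  obtain ⟨u, rfl⟩ := (T.H.exact_bd s hX b z).1 e1
  have e2 : T.E.bd s b (y - T.ρ U (b + 1) u) = 0 := by
    rw [map_sub, ← hz, T.bd_comm, sub_self]
  obtain ⟨e, he⟩ := (T.E.exact_pull s hX b _).1 e2
  obtain ⟨x, rfl⟩ := h1 e
  refine ⟨u + T.H.pull s.j (b + 1) x, ?_⟩
  rw [map_add, T.pull_comm, he]
  abel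

theorem surj_open_zero (h1 : Function.Surjective (T.ρ X 0)) : Function.Surjective (T.ρ U 0) := by
  intro y
  obtain ⟨e, rfl⟩ := T.E.surjective_pull s hX y
  obtain ⟨x, rfl⟩ := h1 e
  exact ⟨T.H.pull s.j 0 x, T.pull_comm s.j 0 x⟩

/-- Gluing. -/
theorem Good.glue (hZ : Good T j Z) (hU : Good T j U) : Good T j X := by
  refine ⟨fun b hb => ⟨inj_mid T s hX (hU.surj T (by omega)) (hZ.inj T hb) (hU.inj T hb), ?_⟩,
    surj_mid T s hX hZ.2 hU.2 (hZ.inj T le_rfl)⟩
  cases b with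
  | zero => exact surj_mid_zero T s hX (hZ.surj T (by omega)) (hU.surj T (by omega))
  | succ b =>
    exact surj_mid T s hX (hZ.surj T (by omega)) (hU.surj T (by omega)) (hZ.inj T (by omega))

/-- Removing a closed subscheme. -/
theorem Good.remove (hZ : Good T j Z) (hG : Good T j X) : Good T j U := by
  refine ⟨fun b hb => ?_, surj_open T s hX hG.2 (hZ.surj T (by omega)) (hG.inj T le_rfl)⟩
  cases b with
  | zero => exact ⟨inj_open_zero T s hX (hZ.surj T (by omega)) (hG.inj T hb),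
      surj_open_zero T s hX (hG.surj T (by omega))⟩
  | succ b => exact ⟨inj_open T s hX (hZ.surj T (by omega)) (hG.inj T hb) (hZ.inj T (by omega)),
      surj_open T s hX (hG.surj T (by omega)) (hZ.surj T (by omega)) (hG.inj T (by omega))⟩

end

theorem good_of_isEmpty {X : Scheme.{0}} (h : IsEmpty X) : Good T j X := by
  have h1 : ∀ b, Function.Bijective (T.ρ X b) := fun b => by
    have := T.H.empty X b h
    have := T.E.empty X b h
    exact ⟨Function.injective_of_subsingleton _, fun y => ⟨0, Subsingleton.elim _ _⟩⟩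
  exact ⟨fun b _ => h1 b, (h1 _).2⟩

/-- Transfer. -/
theorem Good.transfer {V U : Scheme.{0}} (f : V ⟶ U) (hU : IsVar p U) (hf : FiniteEtale f)
    (hV : Good T j V) : Good T j U := by
  have e1 : ∀ b, Function.Injective (T.ρ V b) → Function.Injective (T.ρ U b) := fun b hb => by
    obtain ⟨s, r, s', r', e1, e2, e3, e4⟩ := T.transfer f hU hf b
    rw [injective_iff_map_eq_zero]
    intro x hx
    have e5 : s x = 0 := hb (by rw [e3, hx, map_zero, map_zero])
    rw [← e1 x, e5, map_zero]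
  have e2 : ∀ b, Function.Surjective (T.ρ V b) → Function.Surjective (T.ρ U b) := fun b hb => by
    obtain ⟨s, r, s', r', e1, e2, e3, e4⟩ := T.transfer f hU hf b
    intro y
    obtain ⟨v, hv⟩ := hb (s' y)
    exact ⟨r v, by rw [e4, hv, e2]⟩
  exact ⟨fun b hb => ⟨e1 b (hV.inj T hb), e2 b (hV.surj T (by omega))⟩, e2 _ hV.2⟩

end Pool.Agent.Lib.MP_b197b4_dr
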