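import Mathlib

/-!
# MP_b197b4_nt, dimension reduction: definitions

Borel-Moore homology theories on schemes of finite type over a prime field `𝔽_p`, comparison of
two of them, and the facts of the literature which are used for motivic homology.
-/

set_option autoImplicit false

open CategoryTheory AlgebraicGeometry TopologicalSpace

namespace Pool.Agent.Lib.MP_b197b4_dr

/-- A structure morphism over `𝔽_p`. -/
abbrev Str (p : ℕ) (X : Scheme.{0}) : Type := X ⟶ Spec (CommRingCat.of (ZMod p))

/-- Separated and of finite type over `𝔽_p`. -/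
def IsVar (p : ℕ) (X : Scheme.{0}) : Prop :=
  ∃ π : Str p X, IsSeparated π ∧ LocallyOfFiniteType π ∧ QuasiCompact π

/-- Affine and smooth over `𝔽_p`, of dimension `n`. -/
def SmoothAffine (p n : ℕ) (U : Scheme.{0}) : Prop :=
  IsAffine U ∧ ∃ π : Str p U, SmoothOfRelativeDimension n π

/-- Smooth, proper and connected (equivalently irreducible) over `𝔽_p`, of dimension `n`. -/
structure SmoothProper (p n : ℕ) (X : Scheme.{0}) : Prop where
  str : ∃ π : Str p X, IsProper π ∧ SmoothOfRelativeDimension n π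
  irreducible : IrreducibleSpace X
  /-- automatic -/
  dim_le : topologicalKrullDim X ≤ n

/-- Smooth, projective and connected over `𝔽_p`, of dimension `n`: every finite set of points lies
in an affine open subset (for smooth proper schemes this is projectivity, Kleiman). -/
structure SmoothProjective (p n : ℕ) (X : Scheme.{0}) : Prop extends SmoothProper p n X where
  affine : ∀ F : Set X, F.Finite → ∃ U : X.Opens, IsAffineOpen U ∧ F ⊆ (U : Set X)

/-- The image of `j` is the complement of the image of `i`. -/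
def Compl {Z X U : Scheme.{0}} (i : Z ⟶ X) (j : U ⟶ X) : Prop :=
  Set.range j = (Set.range i)ᶜ

/-- A closed subscheme `Z` of `X` and its open complement `U`. -/
structure Split (Z X U : Scheme.{0}) where
  i : Z ⟶ X
  j : U ⟶ X
  closed : IsClosedImmersion i
  opn : IsOpenImmersion j
  compl : Compl i j

attribute [instance] Split.closed Split.opn

/-- Exactness. -/
def Ex {A B C : Type} [AddCommGroup A] [AddCommGroup B] [AddCommGroup C] (f : A →+ B)
    (g : B →+ C) : Prop := Function.Exact f g

/-- A homology theory (of Borel-Moore type) with localization sequences for schemes separated and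
of finite type over `𝔽_p`: the groups `obj X b` are covariant for closed immersions, contravariant
for open immersions. -/
structure Theory (p : ℕ) where
  obj : Scheme.{0} → ℕ → Type
  [grp : ∀ X b, AddCommGroup (obj X b)]
  push : ∀ {Z X : Scheme.{0}} (i : Z ⟶ X) [IsClosedImmersion i] (b : ℕ), obj Z b →+ obj X b
  pull : ∀ {U X : Scheme.{0}} (j : U ⟶ X) [IsOpenImmersion j] (b : ℕ), obj X b →+ obj U b
  bd : ∀ {Z X U : Scheme.{0}} (_ : Split Z X U) (b : ℕ), obj U (b + 1) →+ obj Z b
  push_comp : ∀ {Z Y X : Scheme.{0}} (i : Z ⟶ Y) (i' : Y ⟶ X) [IsClosedImmersion i]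
    [IsClosedImmersion i'] [IsClosedImmersion (i ≫ i')] (b : ℕ),
    push (i ≫ i') b = (push i' b).comp (push i b)
  empty : ∀ (X : Scheme.{0}) (b : ℕ), IsEmpty X → Subsingleton (obj X b)
  exact_push : ∀ {Z X U : Scheme.{0}} (s : Split Z X U), IsVar p X → ∀ b : ℕ,
    Ex (push s.i b) (pull s.j b)
  exact_bd : ∀ {Z X U : Scheme.{0}} (s : Split Z X U), IsVar p X → ∀ b : ℕ,
    Ex (bd s b) (push s.i b)
  exact_pull : ∀ {Z X U : Scheme.{0}} (s : Split Z X U), IsVar p X → ∀ b : ℕ,
    Ex (pull s.j (b + 1)) (bd s b)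
  surjective_pull : ∀ {Z X U : Scheme.{0}} (s : Split Z X U), IsVar p X →
    Function.Surjective (pull s.j 0)

attribute [instance] Theory.grp

/-- A commutative square. -/
def Commutes {A B C D : Type} [AddCommGroup A] [AddCommGroup B] [AddCommGroup C]
    [AddCommGroup D] (f : A →+ B) (g : B →+ D) (f' : A →+ C) (g' : C →+ D) : Prop :=
  ∀ a, g (f a) = g' (f' a)

/-- `f` is a retract of `g`. -/
def IsRetract {A B C D : Type} [AddCommGroup A] [AddCommGroup B] [AddCommGroup C]
    [AddCommGroup D] (f : A →+ B) (g : C →+ D) : Prop :=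
  ∃ (s : A →+ C) (r : C →+ A) (s' : B →+ D) (r' : D →+ B), (∀ x, r (s x) = x) ∧
    (∀ y, r' (s' y) = y) ∧ (∀ x, g (s x) = s' (f x)) ∧ ∀ y, f (r y) = r' (g y)

/-- Finite, étale and surjective. -/
def FiniteEtale {V U : Scheme.{0}} (f : V ⟶ U) : Prop := IsFinite f ∧ Etale f ∧ Surjective f

/-- Two theories and a comparison map `ρ : H → E` between them, such that `ρ U` is a retract of
`ρ V` for finite étale surjective `V → U` (transfer). -/
structure Comparison (p : ℕ) where
  H : Theory p
  E : Theory p
  ρ : ∀ (X : Scheme.{0}) (b : ℕ), H.obj X b →+ E.obj X b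
  ρ_push : ∀ {Z X : Scheme.{0}} (i : Z ⟶ X) [IsClosedImmersion i] (b : ℕ),
    Commutes (H.push i b) (ρ X b) (ρ Z b) (E.push i b)
  ρ_pull : ∀ {U X : Scheme.{0}} (j : U ⟶ X) [IsOpenImmersion j] (b : ℕ),
    Commutes (H.pull j b) (ρ U b) (ρ X b) (E.pull j b)
  ρ_bd : ∀ {Z X U : Scheme.{0}} (s : Split Z X U) (b : ℕ),
    Commutes (H.bd s b) (ρ Z b) (ρ U (b + 1)) (E.bd s b)
  transfer : ∀ {V U : Scheme.{0}} (f : V ⟶ U), IsVar p U → FiniteEtale f → ∀ b : ℕ,
    IsRetract (ρ U b) (ρ V b)

/-- de Jong's theorem on alterations: every integral `Y` of dimension at most `n` has a nonempty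
open subscheme `U` with a finite étale covering `V` which is an open subscheme of a connected
smooth projective `W`, `dim W ≤ n`. -/
def Alterations (p : ℕ) : Prop :=
  ∀ (n : ℕ) (Y : Scheme.{0}), IsVar p Y → IsIntegral Y → topologicalKrullDim Y ≤ n →
    ∃ (U V W : Scheme.{0}) (a : U ⟶ Y) (f : V ⟶ U) (j : V ⟶ W) (m : ℕ),
      IsOpenImmersion a ∧ Nonempty U ∧ FiniteEtale f ∧ IsOpenImmersion j ∧ m ≤ n ∧
        SmoothProjective p m W

/-- Every class of degree `b` comes from a closed subscheme of dimension at most `b`. -/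
def Supported {p : ℕ} (H : Theory p) : Prop :=
  ∀ X : Scheme.{0}, IsVar p X → ∀ (b : ℕ) (x : H.obj X b), ∃ (Z : Scheme.{0}) (i : Z ⟶ X)
    (_ : IsClosedImmersion i) (z : H.obj Z b), topologicalKrullDim Z ≤ b ∧ H.push i b z = x

/-- Artin vanishing. -/
def Artin {p : ℕ} (E : Theory p) : Prop :=
  ∀ (n : ℕ) (U : Scheme.{0}), SmoothAffine p n U → IsVar p U → ∀ b < n, Subsingleton (E.obj U b)

/-- For connected smooth projective `W`, `E_b(W) = 0` for `b > 0` and `H_0(W) = E_0(W)`. -/
def Pure {p : ℕ} (C : Comparison p) : Prop :=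
  ∀ (n : ℕ) (W : Scheme.{0}), SmoothProjective p n W →
    (∀ b : ℕ, 0 < b → Subsingleton (C.E.obj W b)) ∧ Function.Bijective (C.ρ W 0)

/-- Rational groups `R X b` with pull-back and push-forward for morphisms `f : Y → W` of connected
smooth projective schemes of the same dimension; `deg f` is the degree (`0` if `f` is not
surjective); `Dec f g`: `(f, g)` maps `Y` to `W × W` (product over the field of constants of `W`)
and the direct image of `[Y]` is a sum of classes of products of two cycles on `W`. -/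
structure Rational (p : ℕ) where
  R : Scheme.{0} → ℕ → Type
  [grp : ∀ X b, AddCommGroup (R X b)]
  [mod : ∀ X b, Module ℚ (R X b)]
  pullBack : ∀ {Y W : Scheme.{0}} (_ : Y ⟶ W) (b : ℕ), R W b →+ R Y b
  pushForward : ∀ {Y W : Scheme.{0}} (_ : Y ⟶ W) (b : ℕ), R Y b →+ R W b
  deg : ∀ {Y W : Scheme.{0}} (_ : Y ⟶ W), ℕ
  Dec : ∀ {Y W : Scheme.{0}} (_ _ : Y ⟶ W), Prop
  push_pull_self : ∀ (n : ℕ) {Y W : Scheme.{0}} (f : Y ⟶ W), SmoothProjective p n Y →
    SmoothProjective p n W → ∀ (b : ℕ) (x : R W b), pushForward f b (pullBack f b x) = deg f • x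
  /-- products of cycles act through the motivic cohomology of finite fields, which is torsion
  (Quillen) -/
  push_pull_dec : ∀ (n : ℕ) {Y W : Scheme.{0}} (f g : Y ⟶ W), SmoothProjective p n Y →
    SmoothProjective p n W → Dec f g → ∀ b : ℕ, 0 < b → ∀ x : R W b,
    pushForward g b (pullBack f b x) = 0
  /-- a smooth complete intersection `Y` of `n` hypersurfaces in `W × W` (Poonen), product over the
  field of constants of `W`, with the two projections: its class is a multiple of
  `(h × 1 + 1 × h)^n` -/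
  poonen : ∀ (n : ℕ) (W : Scheme.{0}), 0 < n → SmoothProjective p n W →
    ∃ (Y : Scheme.{0}) (f g : Y ⟶ W), SmoothProjective p n Y ∧ deg f ≠ 0 ∧ deg g ≠ 0 ∧
      Dec f g ∧ Dec g f

attribute [instance] Rational.grp Rational.mod

/-- Motivic homology over `𝔽_p` with facts of the literature: `A X b = H^(2d-b)(X_et, ℤ(d))` for `X`
smooth and proper of dimension `d`; `R X b = CH_0(X, b) ⊗ ℚ` (Bloch's higher Chow groups of
zero-cycles), `H X b = R X b ⊗ ℚ_ℓ`; `E X b` = the generalized eigenspace of Frobenius with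
eigenvalue `1` on the dual of `H_c^b` of `X` over the algebraic closure, coefficients `ℚ_ℓ`. -/
structure Motivic (p : ℕ) where
  C : Comparison p
  Q : Rational p
  A : Scheme.{0} → ℕ → Type
  [grpA : ∀ X b, AddCommGroup (A X b)]
  /-- the integral groups are finite plus rational (Gabber, Geisser) -/
  integral : ∀ (n : ℕ) (X : Scheme.{0}), SmoothProper p n X → ∀ b : ℕ, 0 < b →
    ∃ (F : Type) (_ : AddCommGroup F) (_ : Finite F), Nonempty (A X b ≃+ F × Q.R X b)
  rational : ∀ (n : ℕ) (X : Scheme.{0}), SmoothProper p n X → ∀ b : ℕ,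
    Subsingleton (Q.R X b) ↔ Subsingleton (C.H.obj X b)
  support : Supported C.H
  artin : Artin C.E
  pure : Pure C
  alterations : Alterations p
  /-- a smooth proper scheme is dominated by a smooth projective one -/
  chow : ∀ (n : ℕ) (X : Scheme.{0}), SmoothProper p n X → ∃ X' : Scheme.{0},
    SmoothProjective p n X' ∧
      ∀ b : ℕ, ∃ r : C.H.obj X' b →+ C.H.obj X b, Function.Surjective r
  /-- `H X b` is a direct summand of `H (X × ℙ^m) b` -/
  product : ∀ (n m : ℕ) (X : Scheme.{0}), SmoothProjective p n X → ∃ X' : Scheme.{0},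
    SmoothProjective p (n + m) X' ∧
      ∀ b : ℕ, ∃ s : C.H.obj X b →+ C.H.obj X' b, Function.Injective s

attribute [instance] Motivic.grpA

section

variable {p : ℕ} (T : Motivic p)

/-- `A W b` is finitely generated for all connected smooth projective `W` of dimension `n` and
`1 ≤ b ≤ j`. -/
def FinGen (n j : ℕ) : Prop :=
  ∀ W : Scheme.{0}, SmoothProjective p n W → ∀ b : ℕ, 0 < b → b ≤ j → AddGroup.FG (T.A W b)

/-- `A X b` is finite for all connected smooth proper `X` (of any dimension) and `1 ≤ b ≤ j`. -/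
def AllFinite (j : ℕ) : Prop :=
  ∀ (d : ℕ) (X : Scheme.{0}), SmoothProper p d X → ∀ b : ℕ, 0 < b → b ≤ j → Finite (T.A X b)

/-- The ranks of `A W b` for connected smooth projective `W` of dimension `n` are bounded. -/
def BoundedRank (n b : ℕ) : Prop :=
  ∃ N : ℕ, ∀ W : Scheme.{0}, SmoothProjective p n W → Module.rank ℤ (T.A W b) ≤ N

end

end Pool.Agent.Lib.MP_b197b4_dr
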