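import Pool.Agent.Lib.MP_b197b4_dr.Main

/-!
# MP_b197b4_nt, dimension reduction: the ranks in a given dimension are zero or unbounded
-/

set_option autoImplicit false

open CategoryTheory AlgebraicGeometry TopologicalSpace

namespace Pool.Agent.Lib.MP_b197b4_dr

variable {p : ℕ}

/-- Doubling: two copies of `R W b` inside `R Y b`, `Y` of the same dimension. -/
theorem exists_double (Q : Rational p) {n b : ℕ} (hn : 0 < n) (hb : 0 < b) (W : Scheme.{0})
    (hW : SmoothProjective p n W) : ∃ Y : Scheme.{0}, SmoothProjective p n Y ∧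
      Module.rank ℚ (Q.R W b) + Module.rank ℚ (Q.R W b) ≤ Module.rank ℚ (Q.R Y b) := by
  obtain ⟨Y, f, g, hY, hf, hg, hfg, hgf⟩ := Q.poonen n W hn hW
  refine ⟨Y, hY, ?_⟩
  have e1 : ∀ x, Q.pushForward g b (Q.pullBack f b x) = 0 :=
    Q.push_pull_dec n f g hY hW hfg b hb
  have e2 : ∀ x, Q.pushForward f b (Q.pullBack g b x) = 0 :=
    Q.push_pull_dec n g f hY hW hgf b hb
  let s : Q.R W b × Q.R W b →ₗ[ℚ] Q.R Y b :=
    (Q.pullBack f b).toRatLinearMap.coprod (Q.pullBack g b).toRatLinearMap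
  have hs : Function.Injective s := by
    rw [injective_iff_map_eq_zero]
    rintro ⟨u, v⟩ huv
    have h1 : Q.pullBack f b u + Q.pullBack g b v = 0 := huv
    have h2 : (Q.deg f : ℚ) • u = 0 := by
      have h3 := congrArg (Q.pushForward f b) h1
      rw [map_add, e2, add_zero, map_zero, Q.push_pull_self n f hY hW] at h3
      rw [Nat.cast_smul_eq_nsmul, h3]
    have h4 : (Q.deg g : ℚ) • v = 0 := by
      have h3 := congrArg (Q.pushForward g b) h1
      rw [map_add, e1, zero_add, map_zero, Q.push_pull_self n g hY hW] at h3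
      rw [Nat.cast_smul_eq_nsmul, h3]
    rw [(smul_eq_zero.1 h2).resolve_left (by exact_mod_cast hf),
      (smul_eq_zero.1 h4).resolve_left (by exact_mod_cast hg)]
    rfl
  calc Module.rank ℚ (Q.R W b) + Module.rank ℚ (Q.R W b) =
        Module.rank ℚ (Q.R W b × Q.R W b) := by rw [rank_prod']
    _ ≤ _ := LinearMap.rank_le_of_injective s hs

/-- Bounded ranks are zero. -/
theorem subsingleton_of_bounded (Q : Rational p) {n b : ℕ} (hn : 0 < n) (hb : 0 < b) (N : ℕ) :
    (∀ W : Scheme.{0}, SmoothProjective p n W → Module.rank ℚ (Q.R W b) ≤ N) →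
      ∀ W : Scheme.{0}, SmoothProjective p n W → Subsingleton (Q.R W b) := by
  induction N using Nat.strong_induction_on with
  | _ N ih =>
  intro hN W hW
  rcases Nat.eq_zero_or_pos N with rfl | hpos
  · have h1 := hN W hW
    rw [Nat.cast_zero, nonpos_iff_eq_zero, rank_zero_iff] at h1
    exact h1
  · refine ih (N / 2) (Nat.div_lt_self hpos one_lt_two) (fun W1 hW1 => ?_) W hW
    have hfree : Module.Free ℚ (Q.R W1 b) := Module.Free.of_divisionRing _ _
    have hfin : Module.Finite ℚ (Q.R W1 b) :=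
      Module.rank_lt_aleph0_iff.1 ((hN W1 hW1).trans_lt (Cardinal.natCast_lt_aleph0 (n := N)))
    obtain ⟨W2, hW2, hle⟩ := exists_double Q hn hb W1 hW1
    have h3 := hle.trans (hN W2 hW2)
    rw [← Module.finrank_eq_rank] at h3 ⊢
    have h4 : Module.finrank ℚ (Q.R W1 b) + Module.finrank ℚ (Q.R W1 b) ≤ N := by
      exact_mod_cast h3
    have h5 : Module.finrank ℚ (Q.R W1 b) ≤ N / 2 := by omega
    exact_mod_cast h5

theorem rank_rat_le {V A F : Type} [AddCommGroup V] [Module ℚ V] [AddCommGroup A]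
    [AddCommGroup F] (e : A ≃+ F × V) {N : ℕ} (h : Module.rank ℤ A ≤ N) :
    Module.rank ℚ V ≤ N := by
  by_contra hc
  rw [not_le] at hc
  have h1 : ((N + 1 : ℕ) : Cardinal) ≤ Module.rank ℚ V := by
    rw [Nat.cast_succ, ← Cardinal.succ_natCast]
    exact Order.succ_le_of_lt hc
  obtain ⟨v, hv⟩ := Module.le_rank_iff.1 h1
  have h2 : LinearIndependent ℤ v := hv.restrict_scalars fun a b hab => by
    simpa using hab
  let f : A →ₗ[ℤ] V := ((AddMonoidHom.snd F V).comp e.toAddMonoidHom).toIntLinearMap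
  let w : Fin (N + 1) → A := fun i => e.symm (0, v i)
  have h3 : f ∘ w = v := funext fun i => by simp [f, w]
  have h4 : LinearIndependent ℤ w := LinearIndependent.of_comp f (h3 ▸ h2)
  have h5 : ((N + 1 : ℕ) : Cardinal) ≤ Module.rank ℤ A := Module.le_rank_iff.2 ⟨w, h4⟩
  have h6 := h5.trans h
  have h7 : N + 1 ≤ N := by exact_mod_cast h6
  omega

theorem rank_eq_zero_of_finite (A : Type) [AddCommGroup A] [Finite A] :
    Module.rank ℤ A = 0 := by
  rw [rank_eq_zero_iff]
  intro x
  exact ⟨Nat.card A, by exact_mod_cast Nat.card_pos.ne', by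
    rw [natCast_zsmul, card_nsmul_eq_zero']⟩

theorem subsingleton_of_boundedRank (T : Motivic p) {n b : ℕ} (hn : 0 < n) (hb : 0 < b)
    (h : BoundedRank T n b) (W : Scheme.{0}) (hW : SmoothProjective p n W) :
    Subsingleton (T.Q.R W b) := by
  obtain ⟨N, hN⟩ := h
  refine subsingleton_of_bounded T.Q hn hb N (fun W hW => ?_) W hW
  obtain ⟨F, _, _, ⟨e⟩⟩ := T.integral n W hW.toSmoothProper b hb
  exact rank_rat_le e (hN W hW)

/-- Dimension reduction. -/
theorem tfae [Fact p.Prime] (T : Motivic p) {j n : ℕ} (hn : j + 1 ≤ n) :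
    List.TFAE [FinGen T n j, ∀ b : ℕ, 0 < b → b ≤ j → BoundedRank T n b, AllFinite T j] := by
  tfae_have 1 → 3 := fun h =>
    finite_of_dimension T hn fun W hW b hb hbj => subsingleton_R T hW.toSmoothProper hb
      (h W hW b hb hbj)
  tfae_have 2 → 3 := fun h =>
    finite_of_dimension T hn fun W hW b hb hbj =>
      subsingleton_of_boundedRank T (by omega) hb (h b hb hbj) W hW
  tfae_have 3 → 1 := fun h W hW b hb hbj => by
    have := h n W hW.toSmoothProper b hb hbj
    infer_instance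
  tfae_have 3 → 2 := fun h b hb hbj => ⟨0, fun W hW => by
    have := h n W hW.toSmoothProper b hb hbj
    rw [rank_eq_zero_of_finite, Nat.cast_zero]⟩
  tfae_finish

end Pool.Agent.Lib.MP_b197b4_dr
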