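import Pool.Agent.Lib.MP_b197b4_dr.Compare

/-!
# MP_b197b4_nt, dimension reduction: the comparison lemma (noetherian induction)
-/

set_option autoImplicit false

open CategoryTheory AlgebraicGeometry TopologicalSpace

namespace Pool.Agent.Lib.MP_b197b4_dr

/-- A closed subset which is not everything has smaller dimension in an irreducible space. -/
theorem dim_lt {X Z : Type} [TopologicalSpace X] [TopologicalSpace Z] [IrreducibleSpace X]
    {f : Z → X} (hf : Topology.IsClosedEmbedding f) (hne : Set.range f ≠ Set.univ) {m : ℕ}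
    (h : topologicalKrullDim X < (m + 1 : ℕ)) : topologicalKrullDim Z < m := by
  by_contra hc
  rw [not_lt] at hc
  obtain ⟨p, hp⟩ := Order.le_krullDim_iff.1 hc
  have hmono := IrreducibleCloseds.map_strictMono_of_isInducing hf.isInducing
  let top : IrreducibleCloseds X :=
    ⟨Set.univ, IrreducibleSpace.isIrreducible_univ X, isClosed_univ⟩
  let q := p.map _ hmono
  have hlast : q.last < top := by
    refine lt_of_le_of_ne (fun x _ => Set.mem_univ x) fun he => hne ?_
    have h1 : (q.last : Set X) = Set.univ := congrArg (fun t : IrreducibleCloseds X => (t : Set X)) he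
    have h2 : (q.last : Set X) ⊆ Set.range f := by
      refine closure_minimal ?_ hf.isClosed_range
      rintro _ ⟨z, -, rfl⟩
      exact ⟨z, rfl⟩
    exact Set.eq_univ_of_univ_subset (h1 ▸ h2)
  have h3 : ((m + 1 : ℕ) : WithBot ℕ∞) ≤ topologicalKrullDim X :=
    Order.le_krullDim_iff.2 ⟨q.snoc top hlast, by
      change q.length + 1 = m + 1
      rw [← hp]
      rfl⟩
  exact absurd h (not_lt.2 h3)

theorem le_of_lt_succ {a : WithBot ℕ∞} {m : ℕ} (h : a < (m + 1 : ℕ)) : a ≤ m := by
  induction a with
  | bot => exact bot_le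
  | coe a =>
    have h1 : a < ((m + 1 : ℕ) : ℕ∞) := by exact_mod_cast h
    have h2 : a ≤ m := by
      cases a with
      | top => simp at h1
      | coe a => exact_mod_cast Nat.lt_succ_iff.1 (by exact_mod_cast h1)
    exact_mod_cast h2

theorem isEmpty_of_dim {X : Type} [TopologicalSpace X] (h : topologicalKrullDim X < 0) :
    IsEmpty X := by
  by_contra hc
  rw [not_isEmpty_iff] at hc
  obtain ⟨x⟩ := hc
  have : Nonempty (IrreducibleCloseds X) := ⟨⟨closure {x}, isIrreducible_singleton.closure,
    isClosed_closure⟩⟩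
  exact absurd h (not_lt.2 Order.krullDim_nonneg)

/-- A nonempty noetherian space has a nonempty irreducible open subset. -/
theorem exists_irreducible_open (X : Type) [TopologicalSpace X] [NoetherianSpace X]
    [Nonempty X] : ∃ V : Set X, IsOpen V ∧ IsIrreducible V := by
  obtain ⟨x⟩ := ‹Nonempty X›
  obtain ⟨V, h1, h2, h3⟩ := NoetherianSpace.exists_isOpen_nonempty_subset_irreducibleComponent
    (irreducibleComponent x) (irreducibleComponent_mem_irreducibleComponents x)
  exact ⟨V, h1, h2, isIrreducible_irreducibleComponent.isPreirreducible.open_subset h1 h3⟩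

variable {p : ℕ} [Fact p.Prime] (T : Comparison p) {j n : ℕ}

/-- Comparison lemma: if the comparison map is good for smooth projective schemes of dimension at
most `n`, then it is good for all schemes of dimension at most `n`. -/
theorem good_of_dim (hA : Alterations p)
    (hW : ∀ m ≤ n, ∀ W : Scheme.{0}, SmoothProjective p m W → Good T j W) (m : ℕ)
    (hm : m ≤ n + 1) :
    ∀ Y : Scheme.{0}, IsVar p Y → topologicalKrullDim Y < m → Good T j Y := by
  induction m with
  | zero => exact fun Y _ hd => good_of_isEmpty T (isEmpty_of_dim (by exact_mod_cast hd))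
  | succ m ih =>
    intro Y hY hdim
    have hYn := hY.noetherian
    suffices key : ∀ (C : Closeds Y) (X : Scheme.{0}) (i : X ⟶ Y), IsClosedImmersion i →
        Set.range i = (C : Set Y) → Good T j X from
      key ⊤ Y (𝟙 Y) inferInstance (Set.range_eq_univ.2 fun y => ⟨y, rfl⟩)
    intro C
    induction C using WellFoundedLT.induction with
    | _ C ih2 =>
    intro X i hi hr
    have hX := hY.closed i
    by_cases hne : IsEmpty X
    · exact good_of_isEmpty T hne
    rw [not_isEmpty_iff] at hne
    obtain ⟨R, e, he1, he2, he3⟩ := exists_closed X Set.univ isClosed_univ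
    have hR := hX.closed e
    suffices hgR : Good T j R by
      obtain ⟨U, s, hs⟩ := exists_split_of_closed e
      subst hs
      refine Good.glue T s hX hgR (good_of_isEmpty T ?_)
      have h1 : Set.range s.j = (Set.range s.i)ᶜ := s.compl
      rw [he3, Set.compl_univ, Set.range_eq_empty_iff] at h1
      exact h1
    have hRn := hR.noetherian
    have hRne : Nonempty R := by
      obtain ⟨x⟩ := hne
      have : x ∈ Set.range e := he3 ▸ Set.mem_univ x
      exact ⟨this.choose⟩
    obtain ⟨V', hV1, hV2⟩ := exists_irreducible_open R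
    let V : R.Opens := ⟨V', hV1⟩
    have hVS : IsVar p V := hR.opn V.ι
    have hred : AlgebraicGeometry.IsReduced (V : Scheme) := inferInstance
    have hirr : IrreducibleSpace (V : Scheme) := Subtype.irreducibleSpace hV2
    have hint : IsIntegral (V : Scheme) := isIntegral_of_irreducibleSpace_of_isReduced (V : Scheme)
    have hVdim : topologicalKrullDim (V : Scheme) ≤ m := by
      have h1 : topologicalKrullDim (V : Scheme) ≤ topologicalKrullDim Y :=
        (V.ι.isOpenEmbedding.isInducing.topologicalKrullDim_le).trans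
          ((e.isClosedEmbedding.isInducing.topologicalKrullDim_le).trans
            i.isClosedEmbedding.isInducing.topologicalKrullDim_le)
      exact le_of_lt_succ (h1.trans_lt hdim)
    obtain ⟨U, V1, W, a, f, w, m', ha, hU, hf, hw, hm', hWs⟩ := hA m V hVS hint hVdim
    have hWv := hWs.toSmoothProper.isVar
    have hWi := hWs.irreducible
    obtain ⟨Z1, s1, hs1⟩ := exists_split_of_open w
    subst hs1
    have hUV := hVS.opn a
    have hc1 : Set.range s1.j = (Set.range s1.i)ᶜ := s1.compl
    have hne1 : Nonempty V1 := by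
      obtain ⟨u⟩ := hU
      have := hf.2.2
      obtain ⟨y, -⟩ := f.surjective u
      exact ⟨y⟩
    have hZ1 : Good T j Z1 := by
      refine ih (by omega) Z1 (hWv.closed s1.i) (dim_lt s1.i.isClosedEmbedding ?_ ?_)
      · intro h1
        obtain ⟨y⟩ := hne1
        have h2 : s1.j y ∈ Set.range s1.j := ⟨y, rfl⟩
        rw [hc1, h1] at h2
        exact h2 (Set.mem_univ _)
      · refine hWs.dim_le.trans_lt ?_
        exact_mod_cast Nat.lt_succ_of_le hm'
    have hV1 : Good T j V1 := Good.remove T s1 hWv hZ1 (hW m' (by omega) W hWs)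
    have hgU : Good T j U := Good.transfer T f hUV hf hV1
    obtain ⟨Z2, s2, hs2⟩ := exists_split_of_open (a ≫ V.ι)
    have hc2 : Set.range s2.j = (Set.range s2.i)ᶜ := s2.compl
    refine Good.glue T s2 hR ?_ hgU
    refine ih2 ⟨Set.range (s2.i ≫ e ≫ i), (s2.i ≫ e ≫ i).isClosedEmbedding.isClosed_range⟩ ?_ Z2
      (s2.i ≫ e ≫ i) inferInstance rfl
    have hcomp : ∀ z, (s2.i ≫ e ≫ i) z = i (e (s2.i z)) := fun z => rfl
    refine lt_of_le_of_ne ?_ fun heq => ?_
    · rintro _ ⟨z, rfl⟩
      change (s2.i ≫ e ≫ i) z ∈ (C : Set Y)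
      rw [hcomp, ← hr]
      exact ⟨_, rfl⟩
    · obtain ⟨u⟩ := hU
      have h1 : i (e ((a ≫ V.ι) u)) ∈ (C : Set Y) := by
        rw [← hr]
        exact ⟨_, rfl⟩
      rw [← heq] at h1
      obtain ⟨z, hz⟩ := h1
      rw [hcomp] at hz
      have h2 := e.isClosedEmbedding.injective (i.isClosedEmbedding.injective hz)
      have h3 : (a ≫ V.ι) u ∈ Set.range s2.j := hs2 ▸ ⟨u, rfl⟩
      rw [hc2] at h3
      exact h3 ⟨z, h2⟩

end Pool.Agent.Lib.MP_b197b4_dr
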