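import Pool.Agent.Lib.MP_b197b4_dr.Artin

/-!
# MP_b197b4_nt, dimension reduction: a complete intersection `Y` of dimension `j + 1` through a
closed subscheme `Z` of dimension `j`, with `E_b(Y) = 0` for `0 < b ≤ j`
-/

set_option autoImplicit false

open CategoryTheory AlgebraicGeometry TopologicalSpace Topology

namespace Pool.Agent.Lib.MP_b197b4_dr

theorem exists_lefschetz {p : ℕ} [Fact p.Prime] (C : Comparison p) (hE : Artin C.E)
    (hp : Pure C) {D j b : ℕ} (hb : 0 < b) (hbj : b ≤ j) (hjD : j + 1 ≤ D) {X Z : Scheme.{0}}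
    (hX : SmoothProjective p D X) (i : Z ⟶ X) [IsClosedImmersion i]
    (hZ : topologicalKrullDim Z ≤ j) :
    ∃ (Y : Scheme.{0}) (a : Z ⟶ Y) (c : Y ⟶ X) (_ : IsClosedImmersion a)
      (_ : IsClosedImmersion c), a ≫ c = i ∧
      topologicalKrullDim Y ≤ (j + 1 : ℕ) ∧ Subsingleton (C.E.obj Y b) := by
  have hvar : IsVar p X := hX.toSmoothProper.isVar
  have hnoeth := hvar.noetherian
  have hZc : IsClosed (Set.range i) := i.isClosedEmbedding.isClosed_range
  obtain ⟨L, hL, haff, hdis, hs⟩ := exists_cut hX.dim_le hX.affine hZc (D - j - 1)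
  have hcl : IsClosed ((cup L : Set X)ᶜ) := (cup L).isOpen.isClosed_compl
  let J := Scheme.IdealSheafData.vanishingIdeal (⟨(cup L : Set X)ᶜ, hcl⟩ : Closeds X)
  let I := i.ker * J
  have hIle : I.subschemeι.ker ≤ i.ker := by
    rw [Scheme.IdealSheafData.ker_subschemeι]
    intro U
    have h1 : i.ker.ideal U * J.ideal U ≤ i.ker.ideal U := Ideal.mul_le_left
    exact h1
  have hsupp : Set.range I.subschemeι = (cup L : Set X)ᶜ := by
    rw [Scheme.IdealSheafData.range_subschemeι]
    have h1 : (I.support : Set X) = (i.ker.support : Set X) ∪ (J.support : Set X) := by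
      rw [Scheme.IdealSheafData.support_mul]
      rfl
    have h2 : (J.support : Set X) = (cup L : Set X)ᶜ := by
      simp [J]
    have h3 : (i.ker.support : Set X) = Set.range i := by
      rw [Scheme.Hom.support_ker]
      exact hZc.closure_eq
    rw [h1, h2, h3]
    exact Set.union_eq_right.2 (Set.subset_compl_iff_disjoint_left.2 hdis)
  let c : I.subscheme ⟶ X := I.subschemeι
  let a : Z ⟶ I.subscheme := IsClosedImmersion.lift I.subschemeι i hIle
  have hac : a ≫ c = i := IsClosedImmersion.lift_fac _ _ _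
  have hcomp : IsClosedImmersion (a ≫ c) := by
    rw [hac]
    infer_instance
  have ha : IsClosedImmersion a := IsClosedImmersion.of_comp a c
  let s : Split I.subscheme X (opn X (cup L)) :=
    { i := c
      j := opnι X (cup L)
      closed := inferInstance
      opn := inferInstance
      compl := by
        change Set.range (opnι X (cup L)) = (Set.range I.subschemeι)ᶜ
        rw [range_opnι, hsupp, compl_compl] }
  refine ⟨I.subscheme, a, c, ha, inferInstance, hac, ?_, ?_⟩
  · have hZ' : topologicalKrullDim Z ≤ ((j + 1 : ℕ) : WithBot ℕ∞) := by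
      refine hZ.trans ?_
      exact_mod_cast Nat.le_succ j
    refine krullDim_le_of_series c.isClosedEmbedding i.isClosedEmbedding hZ' ?_
    intro t ht1 ht2
    rw [hsupp] at ht1
    have h1 := hs t (Set.subset_compl_iff_disjoint_right.1 ht1) ht2
    omega
  · obtain ⟨π, -, hπ⟩ := hX.str
    have h1 : Subsingleton (C.E.obj (opn X (cup L)) (b + 1)) :=
      artin_union C.E hE hvar ⟨π, hπ⟩ (D - j - 1) L hL haff (b + 1) (by omega)
    have h2 : Subsingleton (C.E.obj X b) := (hp D X hX).1 b hb
    exact subsingleton_of_exact (C.E.bd s b) (C.E.push s.i b) (C.E.exact_bd s hvar b)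

end Pool.Agent.Lib.MP_b197b4_dr
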