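import Pool.Agent.Lib.MP_b197b4_dr.Induct
import Pool.Agent.Lib.MP_b197b4_dr.Lefschetz

/-!
# MP_b197b4_nt, dimension reduction: vanishing in all dimensions
-/

set_option autoImplicit false

open CategoryTheory AlgebraicGeometry TopologicalSpace

namespace Pool.Agent.Lib.MP_b197b4_dr

/-- A rational vector space which is a finitely generated group is zero. -/
theorem subsingleton_of_fg (V : Type) [AddCommGroup V] [Module ℚ V] (h : AddGroup.FG V) :
    Subsingleton V := by
  have h1 : Module.Finite ℤ V := Module.Finite.iff_addGroup_fg.2 h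
  have h2 : Module.IsTorsionFree ℤ V := by
    refine Module.IsTorsionFree.of_smul_eq_zero fun r v hrv => ?_
    rw [← Int.cast_smul_eq_zsmul ℚ, smul_eq_zero] at hrv
    exact_mod_cast hrv
  by_contra hc
  rw [not_subsingleton_iff_nontrivial] at hc
  let B := Module.Free.chooseBasis ℤ V
  obtain ⟨i⟩ : Nonempty (Module.Free.ChooseBasisIndex ℤ V) := B.index_nonempty
  have h3 : B i = (2 : ℤ) • (((1 : ℚ) / 2) • B i) := by
    rw [← Int.cast_smul_eq_zsmul ℚ, smul_smul]
    norm_num
  have h4 : (1 : ℤ) = 2 * B.repr (((1 : ℚ) / 2) • B i) i := by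
    have h5 := congrArg (fun v => B.repr v i) h3
    simpa using h5
  omega

section

variable {p : ℕ} [Fact p.Prime] (T : Motivic p) {j : ℕ}

omit [Fact p.Prime] in
theorem good_of_vanishing {n : ℕ} (h : ∀ m ≤ n, ∀ W : Scheme.{0}, SmoothProjective p m W →
      ∀ b : ℕ, 0 < b → b ≤ j → Subsingleton (T.C.H.obj W b)) :
    ∀ m ≤ n, ∀ W : Scheme.{0}, SmoothProjective p m W → Good T.C j W := by
  intro m hm W hW
  obtain ⟨h2, h3⟩ := T.pure m W hW
  refine ⟨fun c hc => ?_, ?_⟩
  · rcases Nat.eq_zero_or_pos c with rfl | hc0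
    · exact h3
    · have h1 := h m hm W hW c hc0 hc
      have h2 := h2 c hc0
      exact ⟨Function.injective_of_subsingleton _, fun y => ⟨0, Subsingleton.elim _ _⟩⟩
  · have h2 := h2 (j + 1) (Nat.succ_pos j)
    exact fun y => ⟨0, Subsingleton.elim _ _⟩

/-- Vanishing in dimensions at most `j + 1` implies vanishing in all dimensions. -/
theorem vanishing (h : ∀ m ≤ j + 1, ∀ W : Scheme.{0}, SmoothProjective p m W → ∀ b : ℕ, 0 < b →
      b ≤ j → Subsingleton (T.C.H.obj W b)) (D : ℕ) (X : Scheme.{0})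
    (hX : SmoothProjective p D X) (b : ℕ) (hb : 0 < b) (hbj : b ≤ j) :
    Subsingleton (T.C.H.obj X b) := by
  by_cases hD : D ≤ j + 1
  · exact h D hD X hX b hb hbj
  have hgood := good_of_vanishing T h
  refine subsingleton_of_forall_eq 0 fun x => ?_
  obtain ⟨Z, i, hi, z, hZ, rfl⟩ := T.support X hX.toSmoothProper.isVar b x
  obtain ⟨Y, a, c, ha, hc, rfl, hY, hE⟩ := exists_lefschetz T.C T.artin T.pure hb hbj
    (by omega) hX i (hZ.trans (by exact_mod_cast hbj))
  have hYv := hX.toSmoothProper.isVar.closed c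
  have hG : Good T.C j Y := good_of_dim T.C T.alterations hgood (j + 2)
    le_rfl Y hYv (hY.trans_lt (by exact_mod_cast Nat.lt_succ_self (j + 1)))
  have hH : Subsingleton (T.C.H.obj Y b) := (hG.inj T.C hbj).subsingleton
  rw [T.C.H.push_comp a c b, AddMonoidHom.comp_apply,
    Subsingleton.elim (T.C.H.push a b z) 0, map_zero]

omit [Fact p.Prime] in
/-- If the integral group is finitely generated, then the rational group is zero. -/
theorem subsingleton_R {n : ℕ} {W : Scheme.{0}} (hW : SmoothProper p n W) {b : ℕ} (hb : 0 < b)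
    (h : AddGroup.FG (T.A W b)) : Subsingleton (T.Q.R W b) := by
  obtain ⟨F, _, _, ⟨e⟩⟩ := T.integral n W hW b hb
  refine subsingleton_of_fg _ (AddGroup.fg_of_surjective
    (f := (AddMonoidHom.snd F (T.Q.R W b)).comp e.toAddMonoidHom) fun v => ⟨e.symm (0, v), ?_⟩)
  simp

/-- Vanishing in dimensions at most `j + 1` implies finiteness of the integral groups. -/
theorem finite_of_vanishing (h : ∀ m ≤ j + 1, ∀ W : Scheme.{0}, SmoothProjective p m W →
      ∀ b : ℕ, 0 < b → b ≤ j → Subsingleton (T.C.H.obj W b)) : AllFinite T j := by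
  intro d X hX b hb hbj
  obtain ⟨X', hX', hr⟩ := T.chow d X hX
  obtain ⟨r, hr⟩ := hr b
  have h1 : Subsingleton (T.C.H.obj X' b) := vanishing T h d X' hX' b hb hbj
  have h4 : Subsingleton (T.C.H.obj X b) := hr.subsingleton
  have h5 := (T.rational d X hX b).2 h4
  obtain ⟨F, _, _, ⟨e⟩⟩ := T.integral d X hX b hb
  exact Finite.of_equiv _ e.symm.toEquiv

/-- Dimension reduction: vanishing in one dimension `n ≥ j + 1` implies finiteness in all
dimensions. -/
theorem finite_of_dimension {n : ℕ} (hn : j + 1 ≤ n) (h : ∀ W : Scheme.{0},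
    SmoothProjective p n W → ∀ b : ℕ, 0 < b → b ≤ j → Subsingleton (T.Q.R W b)) :
    AllFinite T j := by
  refine finite_of_vanishing T fun m hm W hW c hc hcj => ?_
  obtain ⟨W', hW', hs⟩ := T.product m (n - m) W hW
  obtain ⟨s, hs⟩ := hs c
  have hW'' : SmoothProjective p n W' := by
    rw [show n = m + (n - m) by omega]
    exact hW'
  have h3 := (T.rational n W' hW''.toSmoothProper c).1 (h W' hW'' c hc hcj)
  exact hs.subsingleton

end

end Pool.Agent.Lib.MP_b197b4_dr
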